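import Pool.Agent.H58.CT.Targets

/-!
# Cyclic terms: row LBC (proper smooth absorbing subuniverses)
-/

set_option autoImplicit false

namespace Pool.Agent.H69.CT

open Pool.Agent.H58.CT

variable {𝒞 : Cln} {E : Type} [Alg 𝒞 E]

theorem int_mem {S : Set (E × E)} (hS : Sub 𝒞 S) {I : Type} [Finite I] (t : 𝒞.T I) (x y : I → E)
    (h : ∀ i, (x i, y i) ∈ S) : (Alg.int t x, Alg.int t y) ∈ S :=
  hS I t (fun i => (x i, y i)) h

theorem abs_nx {S : Set (E × E)} {V W : Set E} (hS : Sub 𝒞 S) (hV : Sub 𝒞 V) (hsm : Smooth S V)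
    (hW : Abs 𝒞 W V) : Abs 𝒞 (nx S V W) V := by
  classical
  obtain ⟨⟨w, hw⟩, hWs, hWV, I, hI, t, ht⟩ := hW
  refine ⟨?_, ?_, fun y hy => hy.1, I, hI, t, ?_⟩
  · obtain ⟨y, hy, hwy⟩ := hsm.1 w (hWV hw)
    exact ⟨y, hy, w, hw, hwy⟩
  · intro J _ s y hy
    choose hyV x hx hxy using hy
    exact ⟨hV J s y hyV, Alg.int s x, hWs J s x hx, int_mem hS s x y hxy⟩
  · intro i y hy hy'
    have hz : ∀ j, ∃ z, z ∈ V ∧ (j ≠ i → z ∈ W) ∧ (z, y j) ∈ S := by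
      intro j
      by_cases hj : j = i
      · obtain ⟨z, hz, hzy⟩ := hsm.2 (y j) (hy j)
        exact ⟨z, hz, fun h => (h hj).elim, hzy⟩
      · obtain ⟨-, z, hz, hzy⟩ := hy' j hj
        exact ⟨z, hWV hz, fun _ => hz, hzy⟩
    choose z hz using hz
    exact ⟨hV I t y hy, Alg.int t z, ht i z (fun j => (hz j).1) (fun j hj => (hz j).2.1 hj),
      int_mem hS t z y fun j => (hz j).2.2⟩

theorem abs_iter {S : Set (E × E)} {V W : Set E} (hS : Sub 𝒞 S) (hV : Sub 𝒞 V)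
    (hsm : Smooth S V) (hW : Abs 𝒞 W V) (n : ℕ) : Abs 𝒞 ((nx S V)^[n] W) V := by
  induction n with
  | zero => exact hW
  | succ n ih =>
    rw [Function.iterate_succ_apply']
    exact abs_nx hS hV hsm ih

/-- the largest smooth subset -/
def core (S : Set (E × E)) (C0 : Set E) : Set E := {x | ∃ X : Set E, X ⊆ C0 ∧ Smooth S X ∧ x ∈ X}

omit [Alg 𝒞 E] in
theorem core_smooth (S : Set (E × E)) (C0 : Set E) : Smooth S (core S C0) := by
  constructor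
  · rintro x ⟨X, hX, hs, hx⟩
    obtain ⟨y, hy, h⟩ := hs.1 x hx
    exact ⟨y, ⟨X, hX, hs, hy⟩, h⟩
  · rintro y ⟨X, hX, hs, hy⟩
    obtain ⟨x, hx, h⟩ := hs.2 y hy
    exact ⟨x, ⟨X, hX, hs, hx⟩, h⟩

omit [Alg 𝒞 E] in
theorem core_nonempty [Finite E] {S : Set (E × E)} {C0 : Set E} (hne : C0.Nonempty)
    (hp : ∀ c ∈ C0, ∃ x ∈ C0, (x, c) ∈ S) : (core S C0).Nonempty := by
  classical
  obtain ⟨c, hc⟩ := hne
  choose! g hg hgS using hp
  have hgn : ∀ n x, x ∈ C0 → g^[n] x ∈ C0 := by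
    intro n
    induction n with
    | zero => exact fun x hx => hx
    | succ n ih =>
      intro x hx
      rw [Function.iterate_succ_apply']
      exact hg _ (ih x hx)
  obtain ⟨m, n, hmn, he⟩ : ∃ m n : ℕ, m < n ∧ g^[m] c = g^[n] c := by
    obtain ⟨m, n, hmn, he⟩ := Finite.exists_ne_map_eq_of_infinite (fun n : ℕ => g^[n] c)
    rcases lt_or_gt_of_ne hmn with h | h
    · exact ⟨m, n, h, he⟩
    · exact ⟨n, m, h, he.symm⟩
  have hxx : g^[n - m] (g^[m] c) = g^[m] c := by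
    rw [← Function.iterate_add_apply, Nat.sub_add_cancel hmn.le, he]
  have hx0 : g^[m] c ∈ C0 := hgn m c hc
  refine ⟨g^[m] c, {y | ∃ j : ℕ, g^[j] (g^[m] c) = y}, ?_, ⟨?_, ?_⟩, 0, rfl⟩
  · rintro y ⟨j, rfl⟩
    exact hgn j _ hx0
  · rintro y ⟨j, rfl⟩
    rcases Nat.eq_zero_or_pos j with rfl | hj
    · refine ⟨_, ⟨n - m - 1, rfl⟩, ?_⟩
      have h1 : g (g^[n - m - 1] (g^[m] c)) = g^[m] c := by
        rw [← Function.iterate_succ_apply' g, Nat.sub_one, Nat.succ_pred_eq_of_pos (by omega)]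
        exact hxx
      have h2 := hgS (g^[n - m - 1] (g^[m] c)) (hgn _ _ hx0)
      rw [h1] at h2
      exact h2
    · obtain ⟨i, rfl⟩ : ∃ i, j = i + 1 := ⟨j - 1, by omega⟩
      refine ⟨_, ⟨i, rfl⟩, ?_⟩
      rw [Function.iterate_succ_apply']
      exact hgS _ (hgn i _ hx0)
  · rintro y ⟨j, rfl⟩
    refine ⟨_, ⟨j + 1, rfl⟩, ?_⟩
    rw [Function.iterate_succ_apply']
    exact hgS _ (hgn j _ hx0)

theorem core_sub {S : Set (E × E)} {C0 : Set E} (hS : Sub 𝒞 S) (hC0 : Sub 𝒞 C0) :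
    Sub 𝒞 (core S C0) := by
  intro I _ t x hx
  have hle : ∀ y ∈ core S C0, y ∈ C0 := fun y ⟨X, hX, _, hy⟩ => hX hy
  refine ⟨{y | ∃ z : I → E, (∀ i, z i ∈ core S C0) ∧ Alg.int t z = y}, ?_, ⟨?_, ?_⟩, x, hx, rfl⟩
  · rintro y ⟨z, hz, rfl⟩
    exact hC0 I t z fun i => hle _ (hz i)
  · rintro y ⟨z, hz, rfl⟩
    choose w hw hw' using fun i => (core_smooth S C0).1 (z i) (hz i)
    exact ⟨Alg.int t w, ⟨w, hw, rfl⟩, int_mem hS t z w hw'⟩
  · rintro y ⟨z, hz, rfl⟩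
    choose w hw hw' using fun i => (core_smooth S C0).2 (z i) (hz i)
    exact ⟨Alg.int t w, ⟨w, hw, rfl⟩, int_mem hS t w z hw'⟩

theorem core_abs {S : Set (E × E)} {V C0 : Set E} (hS : Sub 𝒞 S) (hsm : Smooth S V) (hsub : C0 ⊆ V)
    {I : Type} [Finite I] {t : 𝒞.T I} (ht : AbsBy 𝒞 t C0 V) :
    AbsBy 𝒞 t (core S C0) V := by
  classical
  intro i x hx hx'
  have hle : ∀ y ∈ core S C0, y ∈ C0 := fun y ⟨X, hX, _, hy⟩ => hX hy
  refine ⟨{y | ∃ z : I → E, (∀ j, z j ∈ V) ∧ (∀ j, j ≠ i → z j ∈ core S C0) ∧ Alg.int t z = y},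
    ?_, ⟨?_, ?_⟩, x, hx, hx', rfl⟩
  · rintro y ⟨z, hz, hz', rfl⟩
    exact ht i z hz fun j hj => hle _ (hz' j hj)
  · rintro y ⟨z, hz, hz', rfl⟩
    have hw : ∀ j, ∃ w, w ∈ V ∧ (j ≠ i → w ∈ core S C0) ∧ (z j, w) ∈ S := by
      intro j
      by_cases hj : j = i
      · obtain ⟨w, hw, h⟩ := hsm.1 (z j) (hz j)
        exact ⟨w, hw, fun h' => (h' hj).elim, h⟩
      · obtain ⟨w, hw, h⟩ := (core_smooth S C0).1 (z j) (hz' j hj)
        exact ⟨w, hsub (hle _ hw), fun _ => hw, h⟩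
    choose w hw using hw
    exact ⟨Alg.int t w, ⟨w, fun j => (hw j).1, fun j => (hw j).2.1, rfl⟩,
      int_mem hS t z w fun j => (hw j).2.2⟩
  · rintro y ⟨z, hz, hz', rfl⟩
    have hw : ∀ j, ∃ w, w ∈ V ∧ (j ≠ i → w ∈ core S C0) ∧ (w, z j) ∈ S := by
      intro j
      by_cases hj : j = i
      · obtain ⟨w, hw, h⟩ := hsm.2 (z j) (hz j)
        exact ⟨w, hw, fun h' => (h' hj).elim, h⟩
      · obtain ⟨w, hw, h⟩ := (core_smooth S C0).2 (z j) (hz' j hj)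
        exact ⟨w, hsub (hle _ hw), fun _ => hw, h⟩
    choose w hw using hw
    exact ⟨Alg.int t w, ⟨w, fun j => (hw j).1, fun j => (hw j).2.1, rfl⟩,
      int_mem hS t w z fun j => (hw j).2.2⟩

theorem pf_LBC : T_LBC := by
  classical
  intro 𝒞 E _ _ S V B hS hV hsm hmix hB hBV
  obtain ⟨n0, hn0⟩ := hmix B hB
  have hex : ∃ n, (nx S V)^[n] B = V := ⟨n0, hn0 n0 le_rfl⟩
  have hl := Nat.find_spec hex
  have hl0 : Nat.find hex ≠ 0 := by
    intro h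
    rw [h] at hl
    exact hBV hl
  obtain ⟨l, hl1⟩ : ∃ l, Nat.find hex = l + 1 := ⟨Nat.find hex - 1, by omega⟩
  have hmin : (nx S V)^[l] B ≠ V := Nat.find_min hex (by omega)
  rw [hl1, Function.iterate_succ_apply'] at hl
  have hC0 := abs_iter hS hV hsm hB l
  obtain ⟨hne, hC0s, hC0V, I, hI, t, ht⟩ := hC0
  have hle : core S ((nx S V)^[l] B) ⊆ (nx S V)^[l] B := fun y ⟨X, hX, _, hy⟩ => hX hy
  refine ⟨core S ((nx S V)^[l] B), ⟨?_, core_sub hS hC0s, hle.trans hC0V, I, hI, t,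
    core_abs hS hsm hC0V ht⟩, ?_, core_smooth S _⟩
  · refine core_nonempty hne fun c hc => ?_
    have h1 : c ∈ nx S V ((nx S V)^[l] B) := by
      rw [hl]
      exact hC0V hc
    exact h1.2
  · intro h
    refine hmin (subset_antisymm hC0V fun x hx => hle ?_)
    rw [h]
    exact hx

end Pool.Agent.H69.CT
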